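import Pool.Agent.V11316.G8d

set_option autoImplicit false

/-!
# `F_n(q)` is divisible by the Gaussian binomial coefficient `[2n, n]`

`F_n(q) = ∑_{k=0}^n [8k+1] q^{2k²} [4k,2k] [2k,k]² R_{n,k}(q)`.
-/

namespace Pool.Agent.Results.MP_8a5308_nt.DivByCentralGaussian

open Finset

noncomputable section

/-- the indeterminate `q` -/
def q : RatFunc ℚ := RatFunc.X

/-- the `q`-shifted factorial `(a;p)_m = ∏_{j<m} (1 - a p^j)` -/
def poch (a p : RatFunc ℚ) (m : ℕ) : RatFunc ℚ := ∏ j ∈ range m, (1 - a * p ^ j)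

/-- the `q`-integer `[m] = (1 - q^m)/(1 - q)` -/
def qint (m : ℕ) : RatFunc ℚ := (1 - q ^ m) / (1 - q)

/-- the Gaussian binomial coefficient `[m, j] = (q;q)_m / ((q;q)_j (q;q)_{m-j})` -/
def gauss (m j : ℕ) : RatFunc ℚ := poch q q m / (poch q q j * poch q q (m - j))

/-- `R_{n,k}(q)` -/
def R (n k : ℕ) : RatFunc ℚ :=
  (poch (-q) q n / poch (-q) q k) ^ 4 * (poch (-q) q (2 * n) / poch (-q) q (2 * k)) ^ 2 *
    (poch (q ^ 2) (q ^ 2) k * poch (q ^ 6) (q ^ 6) n /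
      (poch (q ^ 2) (q ^ 2) n * poch (q ^ 6) (q ^ 6) k)) ^ 2

/-- `F_n(q) = ∑_{k=0}^n [8k+1] q^{2k²} [4k,2k] [2k,k]² R_{n,k}(q)` -/
def F (n : ℕ) : RatFunc ℚ :=
  ∑ k ∈ range (n + 1), qint (8 * k + 1) * q ^ (2 * k ^ 2) * gauss (4 * k) (2 * k) *
    gauss (2 * k) k ^ 2 * R n k

/-- the ring `ℤ[q]` -/
def IntPoly : Subring (RatFunc ℚ) := Subring.closure {q}

/-- `P` divides `A` in `ℤ[q]` -/
def DividesIn (P A : RatFunc ℚ) : Prop :=
  P ∈ IntPoly ∧ A ∈ IntPoly ∧ ∃ G ∈ IntPoly, A = P * G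

theorem gauss_eq {m j : ℕ} (h : j ≤ m) : gauss m j = V11316.Del.gauss V11307.Q.q m j := by
  have h1 := V11316.Del.gauss_fac V11316.Del.NR_q h
  have n1 : poch q q j ≠ 0 := V11316.Del.ff_ne V11316.Del.NR_q j
  have n2 : poch q q (m - j) ≠ 0 := V11316.Del.ff_ne V11316.Del.NR_q (m - j)
  rw [gauss, div_eq_iff (mul_ne_zero n1 n2)]
  exact h1.symm

theorem F_eq (n : ℕ) : F n = V11316.G8.FN n := by
  rw [F, V11316.G8.FN]
  refine sum_congr rfl fun k hk => ?_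
  have hk' : k ≤ n := Nat.lt_succ_iff.1 (mem_range.1 hk)
  have h1 := V11316.G8.R_form hk'
  have h2 : R n k = V11316.G8.P1 k n ^ 4 * V11316.G8.P1 (2 * k) (2 * n) ^ 2 *
      V11316.G8.P3 k n ^ 2 := h1
  rw [h2, gauss_eq (show 2 * k ≤ 4 * k by omega), gauss_eq (show k ≤ 2 * k by omega), V11316.G8.v,
    V11316.G8.cb, V11316.G8.cb, show 2 * (2 * k) = 4 * k by ring, qint, div_eq_mul_inv]
  change (1 - q ^ (8 * k + 1)) * (1 - q)⁻¹ * q ^ (2 * k ^ 2) * _ * _ ^ 2 * _ =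
    (1 - q ^ (8 * k + 1)) * (1 - q)⁻¹ * q ^ (2 * k ^ 2) * _
  ring

theorem mem_of {x : RatFunc ℚ} (hx : x ∈ V11316.G8.PZ) : x ∈ IntPoly := V11316.G8.PZ_closure hx

/-- For every positive integer `n`, `[2n, n]` divides `F_n(q)` in `ℤ[q]`. -/
theorem result (n : ℕ) (_hn : 1 ≤ n) : DividesIn (gauss (2 * n) n) (F n) := by
  rw [F_eq, gauss_eq (show n ≤ 2 * n by omega)]
  obtain ⟨G, hG, h⟩ := V11316.G8.FN_two n
  exact ⟨mem_of (V11316.G8.gauss_PZ _ _), mem_of (V11316.G8.FN_PZ n), G, mem_of hG, h⟩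

end

end Pool.Agent.Results.MP_8a5308_nt.DivByCentralGaussian
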